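import Mathlib

open MeasureTheory Set

namespace Pool.Agent.N242.ER

noncomputable section

/-- square of the Vandermonde product -/
def vv {n : ℕ} (x : Fin n → ℝ) : ℝ := ∏ i, ∏ k ∈ Finset.univ.erase i, |x i - x k|

/-- for x = cos a, y = cos b this is |1 - ρ e^(i(a-b))|^2 |1 - ρ e^(i(a+b))|^2 -/
def Qr (ρ x y : ℝ) : ℝ := 4 * ρ ^ 2 * (x - y) ^ 2 + (1 - ρ) ^ 2 * ((1 + ρ) ^ 2 - 4 * ρ * x * y)

/-- regularised logarithmic kernel -/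
def Kr (ρ x y : ℝ) : ℝ := -(1 / 2) * Real.log (Qr ρ x y)

/-- small scale part of the potential of the points z -/
def Tz {d : ℕ} (z : Fin d → ℝ) (r x : ℝ) : ℝ :=
  (1 / (2 * d : ℝ)) * ∑ l, Real.log (1 + 2 * r ^ 2 / (x - z l) ^ 2)

/-- norm of the orthogonal polynomial of degree k, as in the frozen statement -/
def tk (w : ℝ → ℝ) (k : ℕ) : ℝ :=
  sInf {t : ℝ | ∃ q : Polynomial ℝ, q.Monic ∧ q.natDegree = k ∧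
    t = Real.sqrt (∫ x in (-1:ℝ)..1, (q.eval x) ^ 2 * w x)}

/-- positive definiteness -/
def StPsd : Prop := ∀ ρ : ℝ, 0 < ρ → ρ < 1 → ∀ (N : ℕ) (x a : Fin N → ℝ), (∀ i, x i ∈ Icc (-1:ℝ) 1) →
  0 ≤ ∑ i, ∑ j, a i * a j * Kr ρ (x i) (x j)

/-- determinant bound -/
def StDet : Prop := ∀ (γ : ℝ) (n₁ : ℕ) (q : Polynomial ℝ) (F : Set ℝ), 0 < γ → 1 ≤ n₁ → q.Monic →
  q.natDegree = n₁ → F ⊆ Icc (-1:ℝ) 1 → (∀ x ∈ F, |q.eval x| ≤ Real.exp (-γ * n₁)) →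
  ∀ (d : ℕ) (z : Fin d → ℝ), (∀ l, z l ∈ F) →
    vv z ≤ (d.factorial : ℝ) ^ 2 * Real.exp (2 * γ * n₁ * d) * Real.exp (-γ * (d * (d - 1)))

/-- lower bound for the maximum of a product of distances -/
def StLow : Prop := ∀ (τ : ℝ) (F : Set ℝ), 0 < τ → MeasurableSet F → F ⊆ Icc (-1:ℝ) 1 →
  ENNReal.ofReal τ ≤ volume F → ∀ (d : ℕ) (s : Finset (Fin d)) (y : Fin d → ℝ),
    (∀ k ∈ s, y k ∈ Icc (-1:ℝ) 1) →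
    ∃ x ∈ F, Real.exp (-(12 / τ) * s.card) ≤ ∏ k ∈ s, |x - y k|

/-- Fekete points -/
def StFek : Prop := ∀ (γ δ τ : ℝ) (n₁ : ℕ) (q : Polynomial ℝ) (F : Set ℝ), 0 < γ → 0 < δ → 0 < τ →
  1 ≤ n₁ → q.Monic → q.natDegree = n₁ → IsCompact F → F ⊆ Icc (-1:ℝ) 1 →
  ENNReal.ofReal τ ≤ volume F → (∀ x ∈ F, |q.eval x| ≤ Real.exp (-γ * n₁)) →
  ∃ d₀ : ℕ, ∀ d : ℕ, d₀ ≤ d → ∃ z : Fin d → ℝ, (∀ l, z l ∈ F) ∧
    (∀ x ∈ F, ∏ l, |x - z l| ≤ Real.exp (-(γ - δ) * d)) ∧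
    ∀ i, Real.exp (-(12 / τ) * d) ≤ ∏ k ∈ Finset.univ.erase i, |z i - z k|

/-- exponential moment of the small scale part -/
def StMass : Prop := ∀ G η : ℝ, 0 < G → 0 < η → ∃ β : ℝ, 0 < β ∧ ∃ n₀ : ℕ, ∀ n : ℕ, n₀ ≤ n →
  ∀ d : ℕ, n ≤ d → ∀ z : Fin d → ℝ, (∀ l, z l ∈ Icc (-1:ℝ) 1) →
    (∀ i, Real.exp (-G * d) ≤ ∏ k ∈ Finset.univ.erase i, |z i - z k|) →
    ∫⁻ x in Icc (-1:ℝ) 1, ENNReal.ofReal (Real.exp (β * n * Tz z (Real.exp (-η * n)) x)) ≤ 10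

/-- lower bound for the integral of the square of the Vandermonde determinant -/
def StVlow : Prop := ∀ w : ℝ → ℝ, Measurable w → (∀ x, 0 ≤ w x) → (∃ M : ℝ, ∀ x, w x ≤ M) → ∀ n : ℕ,
  ENNReal.ofReal (∏ k ∈ Finset.range n, (tk w k) ^ 2) ≤
    ∫⁻ x : Fin n → ℝ, ENNReal.ofReal ((∏ i, (Icc (-1:ℝ) 1).indicator w (x i)) * vv x)

/-- upper bound for the integral of the square of the Vandermonde determinant -/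
def StUp : Prop := ∀ γ τ : ℝ, Real.log 2 < γ → 0 < τ → ∃ c : ℝ, 0 < c ∧ ∃ n₀ : ℕ, ∀ n : ℕ, n₀ ≤ n →
  ∀ (n₁ : ℕ) (q : Polynomial ℝ) (F : Set ℝ), 1 ≤ n₁ → q.Monic → q.natDegree = n₁ → IsCompact F →
    F ⊆ Icc (-1:ℝ) 1 → ENNReal.ofReal τ ≤ volume F → (∀ x ∈ F, |q.eval x| ≤ Real.exp (-γ * n₁)) →
    ∫⁻ x : Fin n → ℝ in Set.pi univ (fun _ => F), ENNReal.ofReal (vv x) ≤
      ENNReal.ofReal (Real.exp (-(Real.log 2 + c) * n ^ 2))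

/-- the frozen statement S04455 -/
def StMain : Prop :=
    ∀ w : ℝ → ℝ, Measurable w → (∀ x, 0 ≤ w x) → (∃ M : ℝ, ∀ x, w x ≤ M) →
      (∀ a b : ℝ, -1 ≤ a → a < b → b ≤ 1 → 0 < ∫ x in a..b, w x) →
      Filter.Tendsto (fun k : ℕ => (tk w k) ^ ((1:ℝ) / k)) Filter.atTop (nhds (1 / 2)) →
      ∀ η : ℝ, 0 < η → ∃ ε : ℝ, 0 < ε ∧
        ∀ E : Set ℝ, MeasurableSet E →
          E ⊆ {x : ℝ | x ∈ Set.Icc (-1:ℝ) 1 ∧ 0 < w x} →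
          MeasureTheory.volume ({x : ℝ | x ∈ Set.Icc (-1:ℝ) 1 ∧ 0 < w x} \ E) ≤ ENNReal.ofReal ε →
          1 / 2 - η ≤ sSup {c : ℝ | ∃ F : Set ℝ, IsCompact F ∧ F ⊆ E ∧
            c = sInf {s : ℝ | ∃ n : ℕ, 1 ≤ n ∧
              s = (sInf {t : ℝ | ∃ q : Polynomial ℝ, q.Monic ∧ q.natDegree = n ∧
                    t = sSup ((fun x => |q.eval x|) '' F)}) ^ ((1:ℝ) / n)}}

end

end Pool.Agent.N242.ER
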